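import Mathlib
import Pool.Agent.H668.Tern

set_option autoImplicit false

/-!
Every finite nonempty set of Turing degrees of arithmetical sets is the degree spectrum of a
relation on a constructivizable algebraic system. In particular this holds for every finite
set of degrees of `Σ⁰_n` sets, for each `n`.

The definitions (see `Pool/Agent/H668/Defs.lean`) match the problem file as follows.
* `Constr S`: the constructivizations of the system with carrier `A` and the ternary
  relation `S` (surjections from the natural numbers for which the pulled back equality and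
  the pulled back relation are computable).
* `deg X`: the Turing degree of the set `X` of natural numbers.
* `DgSp S R`: the set of the degrees of the preimages of `R` under all constructivizations.
* `Sig n X`: the set `X` is `Σ⁰_n`.
-/

namespace Pool.Agent.Results.MP_c11ecb_lc.FiniteSpectra

open Pool.Agent.H668

theorem result (L : Set TuringDegree) (hfin : L.Finite) (hne : L.Nonempty)
    (hL : ∀ a ∈ L, ∃ (n : ℕ) (X : ℕ → Prop), Sig n X ∧ a = deg X) :
    ∃ (S : ℕ → ℕ → ℕ → Prop) (R : ℕ → Prop), Nonempty (Constr S) ∧ DgSp S R = L := by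
  classical
  obtain ⟨m, e, he⟩ : ∃ (m : ℕ) (e : Fin m → TuringDegree), Set.range e = L := by
    have e := hfin.toFinset.equivFin
    refine ⟨_, fun i => (e.symm i).1, ?_⟩
    ext a
    constructor
    · rintro ⟨i, rfl⟩
      exact hfin.mem_toFinset.1 (e.symm i).2
    · intro ha
      refine ⟨e ⟨a, hfin.mem_toFinset.2 ha⟩, ?_⟩
      simp
  obtain ⟨κ, rfl⟩ : ∃ κ, m = κ + 1 := by
    refine ⟨m - 1, ?_⟩
    obtain ⟨a, ha⟩ := hne
    rw [← he] at ha
    obtain ⟨i, _⟩ := ha
    have := i.isLt
    omega
  have hL' : ∀ i : Fin (κ + 1), ∃ (n : ℕ) (X : ℕ → Prop), Sig n X ∧ e i = deg X := fun i =>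
    hL (e i) (by rw [← he]; exact ⟨i, rfl⟩)
  choose n X hX hdeg using hL'
  set K := ∑ i, n i with hK
  have hX2 : ∀ i, ∃ c, ∀ x, X i x ↔ Pool.Agent.Helper941.IsoProb.Un K (c, x) := by
    intro i
    refine Pool.Agent.Helper941.IsoProb.Un_universal K (sigma_mono ?_ ((sig_iff' _ _).1 (hX i)))
    have : n i ≤ ∑ i, n i :=
      Finset.single_le_sum (f := n) (fun _ _ => Nat.zero_le _) (Finset.mem_univ i)
    omega
  choose es hes using hX2
  obtain ⟨S, R, h1, h2⟩ := spectrum K es X hes
  refine ⟨S, R, h1, ?_⟩
  rw [h2, ← he]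
  congr 1
  funext i
  exact (hdeg i).symm

end Pool.Agent.Results.MP_c11ecb_lc.FiniteSpectra
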